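import Pool.Agent.TH625.LOG.Main

/-!
# Finite subcomplexes of the infinite cyclic covering of the complex of a labelled oriented graph

The infinite cyclic covering has the 0-cells `i : ℤ`, the 1-cells `(v, i)` from `i` to `i + 1`, and the
2-cells `(e, i)` with boundary path `(ini e, i) (lab e, i + 1) (ter e, i + 1)⁻¹ (lab e, i)⁻¹`.
-/

set_option autoImplicit false

namespace Pool.Agent.H58T

open Pool.Agent.TH625.LOG

variable {V E : Type}

/-- A finite subcomplex of the infinite cyclic covering: its 1-cells and its 2-cells, together with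
the sides of the 2-cells (and the ends of the 1-cells). -/
structure Sub (L : LOG V E) where
  one : Finset (V × ℤ)
  two : Finset (E × ℤ)
  ini_mem : ∀ e i, (e, i) ∈ two → (L.ini e, i) ∈ one
  lab_mem : ∀ e i, (e, i) ∈ two → (L.lab e, i) ∈ one
  lab_mem' : ∀ e i, (e, i) ∈ two → (L.lab e, i + 1) ∈ one
  ter_mem : ∀ e i, (e, i) ∈ two → (L.ter e, i + 1) ∈ one

variable {L : LOG V E}

/-- `f` assigns elements of a group to the 1-cells such that the products along the boundaries of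
the 2-cells of `Y` are trivial. -/
def Sub.Coc (Y : Sub L) {H : Type} [Group H] (f : V → ℤ → H) : Prop :=
  ∀ e i, (e, i) ∈ Y.two → f (L.ini e) i * f (L.lab e) (i + 1) = f (L.lab e) i * f (L.ter e) (i + 1)

/-- rational cocycles -/
def Sub.QCoc (Y : Sub L) (f : V → ℤ → ℚ) : Prop :=
  ∀ e i, (e, i) ∈ Y.two → f (L.ini e) i + f (L.lab e) (i + 1) = f (L.lab e) i + f (L.ter e) (i + 1)

/-- integral cocycles -/
def Sub.ZCoc (Y : Sub L) (f : V → ℤ → ℤ) : Prop :=
  ∀ e i, (e, i) ∈ Y.two → f (L.ini e) i + f (L.lab e) (i + 1) = f (L.lab e) i + f (L.ter e) (i + 1)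

/-- parallel 1-cells of `Y` have the same value -/
def Sub.Lev (Y : Sub L) {X : Type} (f : V → ℤ → X) : Prop :=
  ∀ u v i, (u, i) ∈ Y.one → (v, i) ∈ Y.one → f u i = f v i

/-- all the rational cocycles are coboundaries -/
def Sub.QTriv (Y : Sub L) : Prop := ∀ f : V → ℤ → ℚ, Y.QCoc f → Y.Lev f

/-- all the integral cocycles are coboundaries -/
def Sub.ZTriv (Y : Sub L) : Prop := ∀ f : V → ℤ → ℤ, Y.ZCoc f → Y.Lev f

theorem Sub.ZTriv.q {Y : Sub L} (h : Y.ZTriv) : Y.QTriv := by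
  classical
  intro f hf u v i hu hv
  -- common denominator
  set D : ℕ := ∏ c ∈ Y.one, (f c.1 c.2).den with hD
  have hD0 : (D : ℚ) ≠ 0 := by
    have h0 : ∏ c ∈ Y.one, (f c.1 c.2).den ≠ 0 :=
      Finset.prod_ne_zero_iff.2 fun c _ => Rat.den_ne_zero _
    rw [hD]
    exact_mod_cast h0
  have hint : ∀ w j, (w, j) ∈ Y.one → ∃ n : ℤ, (D : ℚ) * f w j = n := by
    intro w j hw
    obtain ⟨k, hk⟩ : (f w j).den ∣ D := Finset.dvd_prod_of_mem (fun c : V × ℤ => (f c.1 c.2).den) hw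
    refine ⟨k * (f w j).num, ?_⟩
    rw [hk]
    push_cast
    have h1 : ((f w j).den : ℚ) * f w j = (f w j).num := Rat.den_mul_eq_num _
    calc ((f w j).den : ℚ) * k * f w j = k * (((f w j).den : ℚ) * f w j) := by ring
      _ = _ := by rw [h1]
  have hfl : ∀ w j, (w, j) ∈ Y.one → ((⌊(D : ℚ) * f w j⌋ : ℤ) : ℚ) = D * f w j := by
    intro w j hw
    obtain ⟨n, hn⟩ := hint w j hw
    rw [hn, Int.floor_intCast]
  have h1 : Y.ZCoc fun w j => ⌊(D : ℚ) * f w j⌋ := by
    intro e j he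
    have h2 := hf e j he
    have h3 : (((⌊(D : ℚ) * f (L.ini e) j⌋ + ⌊(D : ℚ) * f (L.lab e) (j + 1)⌋ : ℤ)) : ℚ) =
        ((⌊(D : ℚ) * f (L.lab e) j⌋ + ⌊(D : ℚ) * f (L.ter e) (j + 1)⌋ : ℤ) : ℚ) := by
      push_cast
      rw [hfl _ _ (Y.ini_mem e j he), hfl _ _ (Y.lab_mem e j he), hfl _ _ (Y.lab_mem' e j he),
        hfl _ _ (Y.ter_mem e j he), ← mul_add, ← mul_add, h2]
    exact_mod_cast h3
  have h2 := h _ h1 u v i hu hv
  have h3 : ((⌊(D : ℚ) * f u i⌋ : ℤ) : ℚ) = ((⌊(D : ℚ) * f v i⌋ : ℤ) : ℚ) := by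
    exact_mod_cast congrArg (fun z : ℤ => (z : ℚ)) h2
  rw [hfl u i hu, hfl v i hv] at h3
  exact mul_left_cancel₀ hD0 h3

/-- The intersection of `Y` with its translate by the generator of the group of covering
transformations. -/
def Sub.cap [DecidableEq V] [DecidableEq E] (Y : Sub L) : Sub L where
  one := Y.one.filter fun c => (c.1, c.2 - 1) ∈ Y.one
  two := Y.two.filter fun c => (c.1, c.2 - 1) ∈ Y.two
  ini_mem := by
    intro e i h
    rw [Finset.mem_filter] at h ⊢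
    exact ⟨Y.ini_mem e i h.1, Y.ini_mem e (i - 1) h.2⟩
  lab_mem := by
    intro e i h
    rw [Finset.mem_filter] at h ⊢
    exact ⟨Y.lab_mem e i h.1, Y.lab_mem e (i - 1) h.2⟩
  lab_mem' := by
    intro e i h
    rw [Finset.mem_filter] at h ⊢
    refine ⟨Y.lab_mem' e i h.1, ?_⟩
    show (L.lab e, i + 1 - 1) ∈ Y.one
    rw [add_sub_cancel_right]
    exact Y.lab_mem e i h.1
  ter_mem := by
    intro e i h
    rw [Finset.mem_filter] at h ⊢
    refine ⟨Y.ter_mem e i h.1, ?_⟩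
    have h1 := Y.ter_mem e (i - 1) h.2
    rwa [sub_add_cancel, ← add_sub_cancel_right i 1] at h1

theorem Sub.mem_cap_one [DecidableEq V] [DecidableEq E] (Y : Sub L) (v : V) (i : ℤ) :
    (v, i) ∈ Y.cap.one ↔ (v, i) ∈ Y.one ∧ (v, i - 1) ∈ Y.one := by
  unfold Sub.cap
  rw [Finset.mem_filter]

theorem Sub.mem_cap_two [DecidableEq V] [DecidableEq E] (Y : Sub L) (e : E) (i : ℤ) :
    (e, i) ∈ Y.cap.two ↔ (e, i) ∈ Y.two ∧ (e, i - 1) ∈ Y.two := by
  unfold Sub.cap
  rw [Finset.mem_filter]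

end Pool.Agent.H58T
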