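import Pool.Agent.H58T.Pi

/-!
# The fundamental group is free if the intersection with the translate has no first cohomology
-/

set_option autoImplicit false

namespace Pool.Agent.H58T

open Pool.Agent.TH625.LOG

variable {V E : Type} {L : LOG V E}

/-- The relation on the 1-cells: the initial and the terminal side of a 2-cell are related, and all
the labels which occur at two consecutive levels are related. -/
def Sub.R (Y : Sub L) (c d : V × ℤ) : Prop :=
  (∃ e i, (e, i) ∈ Y.two ∧ c = (L.ini e, i) ∧ d = (L.ter e, i + 1)) ∨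
  (∃ l l' i, (l, i) ∈ Y.one ∧ (l, i + 1) ∈ Y.one ∧ (l', i) ∈ Y.one ∧ (l', i + 1) ∈ Y.one ∧
    c = (l, i) ∧ (d = (l', i) ∨ d = (l', i + 1)))

/-- the free group -/
abbrev Sub.FG (Y : Sub L) : Type := FreeGroup (Quot Y.R ⊕ ℤ)

open Classical in
/-- the element of the free group belonging to the labels at the levels `i` and `i + 1` -/
noncomputable def Sub.C (Y : Sub L) (i : ℤ) : Y.FG :=
  if h : ∃ l, (l, i) ∈ Y.one ∧ (l, i + 1) ∈ Y.one then FreeGroup.of (Sum.inl (Quot.mk _ (h.choose, i)))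
  else FreeGroup.of (Sum.inr i)

/-- the universal cocycle -/
noncomputable def Sub.U (Y : Sub L) (v : V) (i : ℤ) : Y.FG :=
  (Y.C (i - 1))⁻¹ * FreeGroup.of (Sum.inl (Quot.mk _ (v, i)))

theorem Sub.C_eq (Y : Sub L) {l : V} {i : ℤ} (h1 : (l, i) ∈ Y.one) (h2 : (l, i + 1) ∈ Y.one) :
    Y.C i = FreeGroup.of (Sum.inl (Quot.mk _ (l, i))) ∧
      Y.C i = FreeGroup.of (Sum.inl (Quot.mk _ (l, i + 1))) := by
  have h : ∃ l, (l, i) ∈ Y.one ∧ (l, i + 1) ∈ Y.one := ⟨l, h1, h2⟩
  have h3 : Y.C i = FreeGroup.of (Sum.inl (Quot.mk _ (h.choose, i))) := dif_pos h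
  have h4 := h.choose_spec
  constructor
  · rw [h3]
    congr 2
    exact Quot.sound (Or.inr ⟨_, l, i, h4.1, h4.2, h1, h2, rfl, Or.inl rfl⟩)
  · rw [h3]
    congr 2
    exact Quot.sound (Or.inr ⟨_, l, i, h4.1, h4.2, h1, h2, rfl, Or.inr rfl⟩)

theorem Sub.U_coc (Y : Sub L) : Y.Coc Y.U := by
  intro e i h
  have hl1 := Y.lab_mem e i h
  have hl2 := Y.lab_mem' e i h
  have h1 := Y.C_eq hl1 hl2
  have h2 : (Quot.mk Y.R (L.ini e, i)) = Quot.mk Y.R (L.ter e, i + 1) :=
    Quot.sound (Or.inl ⟨e, i, h, rfl, rfl⟩)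
  unfold Sub.U
  rw [add_sub_cancel_right, ← h1.1, ← h1.2, h2]
  group

/-- If the labels have well defined values then the cocycle comes from the universal one. -/
theorem factor {Y : Sub L} {H : Type} [Group H] {f : V → ℤ → H} (hf : Y.Coc f)
    (hl : ∀ u v i, (u, i) ∈ Y.one → (u, i + 1) ∈ Y.one → (v, i) ∈ Y.one → (v, i + 1) ∈ Y.one →
      f u i = f v i ∧ f u (i + 1) = f v (i + 1)) :
    ∃ (θ : Y.FG →* H) (h : ℤ → H), ∀ v i, θ (Y.U v i) = h i * f v i * (h (i + 1))⁻¹ := by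
  classical
  obtain ⟨a, b, hab0, hab⟩ := Pool.Agent.H58T.labels hl
  obtain ⟨g, _, hg⟩ := exists_seq (fun i => Equiv.mulRight (a i)) 0 (1 : H)
  obtain ⟨d, _, hd⟩ := exists_seq (fun i => Equiv.mulLeft (b i)⁻¹) 0 (1 : H)
  have hg' : ∀ i, g (i + 1) = g i * a i := hg
  have hd' : ∀ i, d (i + 1) = (b i)⁻¹ * d i := hd
  set N : V × ℤ → H := fun c => g c.2 * f c.1 c.2 * d c.2 with hN
  have hNR : ∀ c c', Y.R c c' → N c = N c' := by
    have hlab : ∀ l i, (l, i) ∈ Y.one → (l, i + 1) ∈ Y.one → N (l, i) = g (i + 1) * d i ∧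
        N (l, i + 1) = g (i + 1) * d i := by
      intro l i h1 h2
      obtain ⟨h3, h4⟩ := hab l i h1 h2
      constructor
      · show g i * f l i * d i = _
        rw [h3, hg']
      · show g (i + 1) * f l (i + 1) * d (i + 1) = _
        rw [h4, hd', mul_assoc, mul_inv_cancel_left]
    rintro c c' (⟨e, i, he, rfl, rfl⟩ | ⟨l, l', i, h1, h2, h3, h4, rfl, rfl | rfl⟩)
    · have hl1 := Y.lab_mem e i he
      have hl2 := Y.lab_mem' e i he
      obtain ⟨h3, h4⟩ := hab _ i hl1 hl2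
      have h5 := hf e i he
      rw [h3, h4] at h5
      show g i * f (L.ini e) i * d i = g (i + 1) * f (L.ter e) (i + 1) * d (i + 1)
      have h6 : f (L.ter e) (i + 1) = (a i)⁻¹ * (f (L.ini e) i * b i) := by
        rw [h5, inv_mul_cancel_left]
      rw [hg', hd', h6]
      group
    · rw [(hlab l i h1 h2).1, (hlab l' i h3 h4).1]
    · rw [(hlab l i h1 h2).1, (hlab l' i h3 h4).2]
  refine ⟨FreeGroup.lift (Sum.elim (Quot.lift N hNR) fun i => g (i + 1) * d i), fun i => (d (i - 1))⁻¹, ?_⟩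
  intro v i
  have hC : ∀ i, FreeGroup.lift (Sum.elim (Quot.lift N hNR) fun i => g (i + 1) * d i) (Y.C i) =
      g (i + 1) * d i := by
    intro i
    unfold Sub.C
    split_ifs with h
    · rw [FreeGroup.lift_apply_of]
      show g i * f h.choose i * d i = _
      rw [(hab _ i h.choose_spec.1 h.choose_spec.2).1, hg']
    · rw [FreeGroup.lift_apply_of]
      rfl
  unfold Sub.U
  rw [map_mul, map_inv, hC, FreeGroup.lift_apply_of, sub_add_cancel]
  show (g i * d (i - 1))⁻¹ * (g i * f v i * d i) = (d (i - 1))⁻¹ * f v i * ((d (i + 1 - 1))⁻¹)⁻¹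
  rw [add_sub_cancel_right]
  group

/-- The levels of the 1-cells of `Y` are consecutive: `Y` (without isolated 0-cells) is connected. -/
def Sub.Conn (Y : Sub L) : Prop :=
  ∀ u w i j k, (u, i) ∈ Y.one → (w, k) ∈ Y.one → i ≤ j → j ≤ k → ∃ v, (v, j) ∈ Y.one

theorem free_of_labels {Y : Sub L} {τ : ℤ → V} (hτ : Y.Tree τ) (hY : Y.Conn)
    (hl : ∀ (H : Type) [Group H] (f : V → ℤ → H), Y.Coc f →
      ∀ u v i, (u, i) ∈ Y.one → (u, i + 1) ∈ Y.one → (v, i) ∈ Y.one → (v, i + 1) ∈ Y.one →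
      f u i = f v i ∧ f u (i + 1) = f v (i + 1)) : IsFreeGroup (Y.Pi τ) := by
  classical
  -- the classifying homomorphism
  obtain ⟨k, _, hk⟩ := exists_seq (fun i => Equiv.mulRight (Y.U (τ i) i)) 0 (1 : Y.FG)
  have hk' : ∀ i, k (i + 1) = k i * Y.U (τ i) i := hk
  set F : V → ℤ → Y.FG := fun v i => if (v, i) ∈ Y.one then k i * Y.U v i * (k (i + 1))⁻¹ else 1 with hF
  have hF1 : ∀ v i, (v, i) ∈ Y.one → F v i = k i * Y.U v i * (k (i + 1))⁻¹ := fun v i h => if_pos h
  obtain ⟨Ψ, hΨ⟩ := Y.exists_hom τ F (fun v i h => if_neg h) (by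
    intro i
    by_cases h : (τ i, i) ∈ Y.one
    · rw [hF1 _ _ h, hk', mul_inv_cancel]
    · exact if_neg h) (by
    intro e i h
    rw [hF1 _ _ (Y.ini_mem e i h), hF1 _ _ (Y.lab_mem e i h), hF1 _ _ (Y.lab_mem' e i h),
      hF1 _ _ (Y.ter_mem e i h)]
    have h1 := Y.U_coc e i h
    calc _ = k i * (Y.U (L.ini e) i * Y.U (L.lab e) (i + 1)) * (k (i + 1 + 1))⁻¹ := by group
      _ = k i * (Y.U (L.lab e) i * Y.U (L.ter e) (i + 1)) * (k (i + 1 + 1))⁻¹ := by rw [h1]
      _ = _ := by group)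
  obtain ⟨θ, h, hθ⟩ := factor (Y.cl_coc τ) (hl _ _ (Y.cl_coc τ))
  -- `θ ∘ Ψ` is an inner automorphism
  set g : ℤ → Y.Pi τ := fun i => θ (k i) * h i with hg
  have h1 : ∀ v i, (v, i) ∈ Y.one → θ (Ψ (Y.cl τ v i)) = g i * Y.cl τ v i * (g (i + 1))⁻¹ := by
    intro v i hv
    rw [hΨ, hF1 _ _ hv, map_mul, map_mul, map_inv, hθ]
    rw [hg]
    group
  have h2 : ∀ v i, (v, i) ∈ Y.one → g (i + 1) = g i := by
    intro v i hv
    have h3 := h1 _ i (hτ v i hv)
    rw [Y.cl_tree, map_one, map_one, mul_one] at h3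
    rw [eq_comm, mul_inv_eq_one] at h3
    exact h3.symm
  have h3 : ∀ u w i j, (u, i) ∈ Y.one → (w, j) ∈ Y.one → i ≤ j → g j = g i := by
    intro u w i j hu hw hij
    obtain ⟨n, rfl⟩ : ∃ n : ℕ, j = i + n := ⟨(j - i).toNat, by omega⟩
    have h4 : ∀ m : ℕ, m ≤ n → g (i + m) = g i := by
      intro m
      induction m with
      | zero => intro _; simp
      | succ m ih =>
        intro hm
        obtain ⟨v, hv⟩ := hY u w i (i + m) (i + n) hu hw (by omega) (by omega)
        have h5 := h2 v _ hv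
        rw [← ih (by omega), ← h5]
        congr 1
        push_cast
        ring
    exact h4 n le_rfl
  have hinj : Function.Injective Ψ := by
    by_cases hne : ∃ u i, (u, i) ∈ Y.one
    · obtain ⟨u, i, hu⟩ := hne
      have h4 : θ.comp Ψ = (MulAut.conj (g i)).toMonoidHom := by
        refine Y.hom_ext τ fun v j hv => ?_
        have h5 : g j = g i := by
          rcases le_total i j with h6 | h6
          · exact h3 u v i j hu hv h6
          · exact (h3 v u j i hv hu h6).symm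
        show θ (Ψ (Y.cl τ v j)) = g i * Y.cl τ v j * (g i)⁻¹
        rw [h1 v j hv, h2 v j hv, h5]
      have h5 : Function.Injective (θ.comp Ψ) := by
        rw [h4]; exact (MulAut.conj (g i)).injective
      intro x y hxy
      apply h5
      show θ (Ψ x) = θ (Ψ y)
      rw [hxy]
    · have h4 : MonoidHom.id (Y.Pi τ) = 1 :=
        Y.hom_ext τ fun v i hv => absurd ⟨v, i, hv⟩ hne
      intro x y _
      have h5 : ∀ z : Y.Pi τ, z = 1 := fun z => DFunLike.congr_fun h4 z
      rw [h5 x, h5 y]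
  have : IsFreeGroup Ψ.range := subgroupIsFreeOfIsFree Ψ.range
  exact IsFreeGroup.ofMulEquiv (MonoidHom.ofInjective hinj).symm

variable [DecidableEq V] [DecidableEq E]

/-- If the fundamental groups of the components of the intersection of `Y` with its translate have no
homomorphisms onto `ℤ` then the fundamental group of `Y` is free. -/
theorem main2 (hI : Ind L) (Y : Sub L) (τ : ℤ → V) (hτ : Y.Tree τ) (hY : Y.Conn) (σ : ℤ → V)
    (hσ : Y.cap.Tree σ) (h : ¬ ∃ φ : Y.cap.Pi σ →* Multiplicative ℤ, Function.Surjective φ) :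
    IsFreeGroup (Y.Pi τ) := by
  refine free_of_labels hτ hY fun H _ f hf => hf.labels fun g hg => ?_
  exact triv hI _ Y.cap le_rfl (ztriv_of_no_epi hσ h).q H g hg

end Pool.Agent.H58T
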