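import Pool.Agent.H58T.Triv

/-!
# The fundamental group of a finite subcomplex
-/

set_option autoImplicit false

namespace Pool.Agent.H58T

open Pool.Agent.TH625.LOG

variable {V E : Type} {L : LOG V E}

/-- `τ` selects one of the parallel 1-cells of `Y` at every level (if there is one); the selected
1-cells form a maximal forest of the 1-skeleton of `Y`. -/
def Sub.Tree (Y : Sub L) (τ : ℤ → V) : Prop := ∀ v i, (v, i) ∈ Y.one → (τ i, i) ∈ Y.one

/-- The relators of the fundamental group of `Y` with respect to `τ`: the 1-cells which do not belong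
to `Y`, the selected 1-cells, the boundaries of the 2-cells of `Y`. -/
def Sub.rels (Y : Sub L) (τ : ℤ → V) : Set (FreeGroup (V × ℤ)) :=
  {w | ∃ v i, (v, i) ∉ Y.one ∧ w = FreeGroup.of (v, i)} ∪
  {w | ∃ i, w = FreeGroup.of (τ i, i)} ∪
  {w | ∃ e i, (e, i) ∈ Y.two ∧ w = FreeGroup.of (L.ini e, i) * FreeGroup.of (L.lab e, i + 1) *
    (FreeGroup.of (L.ter e, i + 1))⁻¹ * (FreeGroup.of (L.lab e, i))⁻¹}

/-- The fundamental group of `Y` (the free product of the fundamental groups of the components if `Y`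
is not connected). -/
abbrev Sub.Pi (Y : Sub L) (τ : ℤ → V) : Type := PresentedGroup (Y.rels τ)

/-- the class of a 1-cell -/
def Sub.cl (Y : Sub L) (τ : ℤ → V) (v : V) (i : ℤ) : Y.Pi τ := PresentedGroup.of (v, i)

theorem Sub.cl_out (Y : Sub L) (τ : ℤ → V) {v : V} {i : ℤ} (h : (v, i) ∉ Y.one) : Y.cl τ v i = 1 :=
  PresentedGroup.one_of_mem (rels := Y.rels τ) (Or.inl (Or.inl ⟨v, i, h, rfl⟩))

theorem Sub.cl_tree (Y : Sub L) (τ : ℤ → V) (i : ℤ) : Y.cl τ (τ i) i = 1 :=
  PresentedGroup.one_of_mem (rels := Y.rels τ) (Or.inl (Or.inr ⟨i, rfl⟩))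

theorem Sub.cl_coc (Y : Sub L) (τ : ℤ → V) : Y.Coc (Y.cl τ) := by
  intro e i h
  have h1 : PresentedGroup.mk (Y.rels τ) (FreeGroup.of (L.ini e, i) * FreeGroup.of (L.lab e, i + 1) *
    (FreeGroup.of (L.ter e, i + 1))⁻¹ * (FreeGroup.of (L.lab e, i))⁻¹) = 1 :=
    PresentedGroup.one_of_mem (rels := Y.rels τ) (Or.inr ⟨e, i, h, rfl⟩)
  simp only [map_mul, map_inv] at h1
  rw [mul_inv_eq_one, mul_inv_eq_iff_eq_mul] at h1
  exact h1

/-- homomorphisms of the fundamental group from cocycles -/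
theorem Sub.exists_hom (Y : Sub L) (τ : ℤ → V) {H : Type} [Group H] (f : V → ℤ → H)
    (h0 : ∀ v i, (v, i) ∉ Y.one → f v i = 1) (h1 : ∀ i, f (τ i) i = 1) (h2 : Y.Coc f) :
    ∃ φ : Y.Pi τ →* H, ∀ v i, φ (Y.cl τ v i) = f v i := by
  have h : ∀ r ∈ Y.rels τ, FreeGroup.lift (fun c : V × ℤ => f c.1 c.2) r = 1 := by
    rintro r ((⟨v, i, hv, rfl⟩ | ⟨i, rfl⟩) | ⟨e, i, he, rfl⟩)
    · rw [FreeGroup.lift_apply_of]; exact h0 v i hv
    · rw [FreeGroup.lift_apply_of]; exact h1 i
    · simp only [map_mul, map_inv, FreeGroup.lift_apply_of]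
      rw [mul_inv_eq_one, mul_inv_eq_iff_eq_mul]
      exact h2 e i he
  refine ⟨PresentedGroup.toGroup h, fun v i => ?_⟩
  exact PresentedGroup.toGroup.of h

/-- every element of the fundamental group is a product of classes of 1-cells and their inverses -/
theorem Sub.hom_ext (Y : Sub L) (τ : ℤ → V) {H : Type} [Group H] {φ ψ : Y.Pi τ →* H}
    (h : ∀ v i, (v, i) ∈ Y.one → φ (Y.cl τ v i) = ψ (Y.cl τ v i)) : φ = ψ := by
  classical
  refine PresentedGroup.ext fun c => ?_
  obtain ⟨v, i⟩ := c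
  by_cases hv : (v, i) ∈ Y.one
  · exact h v i hv
  · have h1 := Y.cl_out τ hv
    change φ (Y.cl τ v i) = ψ (Y.cl τ v i)
    rw [h1, map_one, map_one]

theorem subsingleton_of_lev {Y : Sub L} {τ : ℤ → V} (hτ : Y.Tree τ)
    (h : Y.Lev (Y.cl τ)) : Subsingleton (Y.Pi τ) := by
  have h1 : (MonoidHom.id (Y.Pi τ)) = 1 := by
    refine Y.hom_ext τ fun v i hv => ?_
    have h2 := h v (τ i) i hv (hτ v i hv)
    rw [Y.cl_tree τ i] at h2
    rw [h2, map_one, map_one]
  refine ⟨fun x y => ?_⟩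
  have h2 : ∀ z : Y.Pi τ, z = 1 := fun z => DFunLike.congr_fun h1 z
  rw [h2 x, h2 y]

/-- If the fundamental group of `Y` has no homomorphism onto `ℤ`, then the integral cocycles of `Y` are
coboundaries. -/
theorem ztriv_of_no_epi {Y : Sub L} {τ : ℤ → V} (hτ : Y.Tree τ)
    (h : ¬ ∃ φ : Y.Pi τ →* Multiplicative ℤ, Function.Surjective φ) : Y.ZTriv := by
  classical
  intro f hf u v i hu hv
  by_contra hne
  set g : V → ℤ → Multiplicative ℤ := fun w j =>
    if (w, j) ∈ Y.one then Multiplicative.ofAdd (f w j - f (τ j) j) else 1 with hg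
  have hg1 : ∀ w j, (w, j) ∈ Y.one → g w j = Multiplicative.ofAdd (f w j - f (τ j) j) :=
    fun w j h => if_pos h
  obtain ⟨φ, hφ⟩ := Y.exists_hom τ g (fun w j h => if_neg h) (by
    intro j
    by_cases h1 : (τ j, j) ∈ Y.one
    · rw [hg1 _ _ h1, sub_self]; rfl
    · exact if_neg h1) (by
    intro e j he
    rw [hg1 _ _ (Y.ini_mem e j he), hg1 _ _ (Y.lab_mem e j he), hg1 _ _ (Y.lab_mem' e j he),
      hg1 _ _ (Y.ter_mem e j he), ← ofAdd_add, ← ofAdd_add]
    congr 1
    have := hf e j he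
    linarith)
  -- the image of `φ` is a nontrivial subgroup of `ℤ`
  have hne' : ∃ x, φ x ≠ 1 := by
    by_contra hall
    push_neg at hall
    have h1 := hall (Y.cl τ u i)
    have h2 := hall (Y.cl τ v i)
    rw [hφ, hg1 _ _ hu] at h1
    rw [hφ, hg1 _ _ hv] at h2
    have h3 : f u i - f (τ i) i = 0 := h1
    have h4 : f v i - f (τ i) i = 0 := h2
    exact hne (by linarith)
  obtain ⟨x, hx⟩ := hne'
  apply h
  -- divide by the generator of the image
  set S : AddSubgroup ℤ := (MonoidHom.toAdditive φ : Additive (Y.Pi τ) →+ ℤ).range with hS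
  obtain ⟨d, hd⟩ := Int.subgroup_cyclic S
  have hd0 : d ≠ 0 := by
    rintro rfl
    apply hx
    have h5 : (Multiplicative.toAdd (φ x)) ∈ S := ⟨Additive.ofMul x, rfl⟩
    rw [hd] at h5
    obtain ⟨k, hk⟩ := AddSubgroup.mem_closure_singleton.1 h5
    rw [smul_zero] at hk
    exact hk.symm
  have hdvd : ∀ y, ∃ k : ℤ, Multiplicative.toAdd (φ y) = d * k := by
    intro y
    have h5 : (Multiplicative.toAdd (φ y)) ∈ S := ⟨Additive.ofMul y, rfl⟩
    rw [hd] at h5
    obtain ⟨k, hk⟩ := AddSubgroup.mem_closure_singleton.1 h5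
    exact ⟨k, by rw [← hk, smul_eq_mul, mul_comm]⟩
  choose k hk using hdvd
  refine ⟨{ toFun := fun y => Multiplicative.ofAdd (k y)
            map_one' := ?_
            map_mul' := ?_ }, ?_⟩
  · have h5 := hk 1
    rw [map_one] at h5
    have h6 : d * k 1 = 0 := h5.symm
    have h7 := (mul_eq_zero.1 h6).resolve_left hd0
    rw [h7]; rfl
  · intro y z
    rw [← ofAdd_add]
    congr 1
    have h5 := hk (y * z)
    rw [map_mul, toAdd_mul, hk y, hk z, ← mul_add] at h5
    exact (mul_left_cancel₀ hd0 h5).symm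
  · intro m
    have h5 : d * Multiplicative.toAdd m ∈ S := by
      rw [hd]
      exact AddSubgroup.mem_closure_singleton.2 ⟨Multiplicative.toAdd m, by rw [smul_eq_mul, mul_comm]⟩
    obtain ⟨y, hy⟩ := h5
    refine ⟨Additive.toMul y, ?_⟩
    have h6 : Multiplicative.toAdd (φ (Additive.toMul y)) = d * Multiplicative.toAdd m := hy
    rw [hk] at h6
    have h7 := mul_left_cancel₀ hd0 h6
    show Multiplicative.ofAdd (k (Additive.toMul y)) = m
    rw [h7]; rfl

variable [DecidableEq V] [DecidableEq E]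

/-- towers of height one -/
theorem main1 (hI : Ind L) (Y : Sub L) (τ : ℤ → V) (hτ : Y.Tree τ)
    (h : ¬ ∃ φ : Y.Pi τ →* Multiplicative ℤ, Function.Surjective φ) : Subsingleton (Y.Pi τ) :=
  subsingleton_of_lev hτ (triv hI _ Y le_rfl (ztriv_of_no_epi hτ h).q _ _ (Y.cl_coc τ))

end Pool.Agent.H58T
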