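import Pool.Agent.H58T.Free

/-!
# Reduced labelled oriented graphs
-/

set_option autoImplicit false

namespace Pool.Agent.H58T

open Pool.Agent.TH625.LOG

variable {V E : Type} {L : LOG V E}

/-- No label of an edge is an end of the edge, and two different edges with the same label have
different initial vertices and different terminal vertices (no folding is possible). -/
structure Reduced (L : LOG V E) : Prop where
  ini_ne : ∀ e, L.lab e ≠ L.ini e
  ter_ne : ∀ e, L.lab e ≠ L.ter e
  ini_inj : ∀ e e', L.lab e = L.lab e' → L.ini e = L.ini e' → e = e'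
  ter_inj : ∀ e e', L.lab e = L.lab e' → L.ter e = L.ter e' → e = e'

/-- one step upwards -/
def Sub.S (Y : Sub L) (c d : V × ℤ) : Prop :=
  (∃ e i, (e, i) ∈ Y.two ∧ c = (L.ini e, i) ∧ d = (L.ter e, i + 1)) ∨
  (∃ l i, (l, i) ∈ Y.one ∧ (l, i + 1) ∈ Y.one ∧ c = (l, i) ∧ d = (l, i + 1))

theorem eqv_cases {X : Type} {r : X → X → Prop} (h1 : Relator.RightUnique r)
    (h2 : Relator.RightUnique (Function.swap r)) {c d : X} (h : Relation.EqvGen r c d) :
    Relation.ReflTransGen r c d ∨ Relation.ReflTransGen r d c := by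
  induction h with
  | rel x y h => exact Or.inl (Relation.ReflTransGen.single h)
  | refl x => exact Or.inl Relation.ReflTransGen.refl
  | symm x y _ ih => exact ih.symm
  | trans x y z _ _ ih1 ih2 =>
    rcases ih1 with h3 | h3 <;> rcases ih2 with h4 | h4
    · exact Or.inl (h3.trans h4)
    · have h5 := Relation.ReflTransGen.total_of_right_unique h2
        (Relation.reflTransGen_swap.2 h3) (Relation.reflTransGen_swap.2 h4)
      rcases h5 with h5 | h5
      · exact Or.inr (Relation.reflTransGen_swap.1 h5)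
      · exact Or.inl (Relation.reflTransGen_swap.1 h5)
    · exact Relation.ReflTransGen.total_of_right_unique h1 h3 h4
    · exact Or.inr (h4.trans h3)

theorem Sub.S_level {Y : Sub L} {c d : V × ℤ} (h : Relation.ReflTransGen Y.S c d) :
    c = d ∨ c.2 < d.2 := by
  induction h with
  | refl => exact Or.inl rfl
  | @tail b c' _ h ih =>
    right
    have h1 : b.2 < c'.2 := by
      rcases h with ⟨e, i, _, rfl, rfl⟩ | ⟨l, i, _, _, rfl, rfl⟩
      · show i < i + 1; omega
      · show i < i + 1; omega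
    rcases ih with rfl | ih
    · exact h1
    · exact lt_trans ih h1

variable [DecidableEq V] [DecidableEq E]

theorem red (hI : Ind L) (hR : Reduced L) (n : ℕ) : ∀ Y : Sub L, Y.one.card ≤ n → Y.QTriv →
    (∀ u v i, (u, i) ∈ Y.one → (v, i) ∈ Y.one → u = v) := by
  classical
  induction n with
  | zero =>
    intro Y hY _ u v i hu
    rw [Nat.le_zero, Finset.card_eq_zero] at hY
    rw [hY] at hu
    exact absurd hu (Finset.notMem_empty _)
  | succ n ih =>
    intro Y hY hq u v i hu hv
    have hlt := cap_card_lt Y ⟨_, hu⟩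
    have hZ := ih Y.cap (by omega) (hq.cap hI)
    have hcap : ∀ l j, (l, j) ∈ Y.one → (l, j + 1) ∈ Y.one → (l, j + 1) ∈ Y.cap.one := by
      intro l j h1 h2
      exact (Y.mem_cap_one l _).2 ⟨h2, by rw [add_sub_cancel_right]; exact h1⟩
    have hlab : ∀ e j, (e, j) ∈ Y.two → (L.lab e, j + 1) ∈ Y.cap.one := fun e j h =>
      hcap _ _ (Y.lab_mem e j h) (Y.lab_mem' e j h)
    have h1 : Relator.RightUnique Y.S := by
      rintro c d d' (⟨e, j, he, rfl, rfl⟩ | ⟨l, j, hl1, hl2, rfl, rfl⟩)
        (⟨e', j', he', h3, rfl⟩ | ⟨l', j', hl1', hl2', h3, rfl⟩)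
      · obtain ⟨h4, rfl⟩ := Prod.ext_iff.1 h3
        have h5 : L.lab e = L.lab e' := hZ _ _ _ (hlab e _ he) (hlab e' _ he')
        rw [hR.ini_inj e e' h5 h4]
      · obtain ⟨h4, rfl⟩ := Prod.ext_iff.1 h3
        have h4' : L.ini e = l' := h4
        have h5 : L.lab e = l' := hZ _ _ _ (hlab e _ he) (hcap _ _ hl1' hl2')
        exact absurd (h5.trans h4'.symm) (hR.ini_ne e)
      · obtain ⟨h4, rfl⟩ := Prod.ext_iff.1 h3
        have h4' : l = L.ini e' := h4
        have h5 : L.lab e' = l := hZ _ _ _ (hlab e' _ he') (hcap _ _ hl1 hl2)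
        exact absurd (h5.trans h4') (hR.ini_ne e')
      · obtain ⟨h4, rfl⟩ := Prod.ext_iff.1 h3
        have h4' : l = l' := h4
        rw [h4']
    have h2 : Relator.RightUnique (Function.swap Y.S) := by
      rintro c d d' (⟨e, j, he, rfl, rfl⟩ | ⟨l, j, hl1, hl2, rfl, rfl⟩)
        (⟨e', j', he', rfl, h3⟩ | ⟨l', j', hl1', hl2', rfl, h3⟩)
      · obtain ⟨h4, h6⟩ := Prod.ext_iff.1 h3
        obtain rfl : j = j' := add_right_cancel h6
        have h5 : L.lab e = L.lab e' := hZ _ _ _ (hlab e _ he) (hlab e' _ he')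
        rw [hR.ter_inj e e' h5 h4]
      · obtain ⟨h4, h6⟩ := Prod.ext_iff.1 h3
        obtain rfl : j = j' := add_right_cancel h6
        have h4' : L.ter e = l' := h4
        have h5 : L.lab e = l' := hZ _ _ _ (hlab e _ he) (hcap _ _ hl1' hl2')
        exact absurd (h5.trans h4'.symm) (hR.ter_ne e)
      · obtain ⟨h4, h6⟩ := Prod.ext_iff.1 h3
        obtain rfl : j = j' := add_right_cancel h6
        have h4' : l = L.ter e' := h4
        have h5 : L.lab e' = l := hZ _ _ _ (hlab e' _ he') (hcap _ _ hl1 hl2)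
        exact absurd (h5.trans h4') (hR.ter_ne e')
      · obtain ⟨h4, h6⟩ := Prod.ext_iff.1 h3
        obtain rfl : j = j' := add_right_cancel h6
        have h4' : l = l' := h4
        rw [h4']
    have h3 : Y.QCoc fun w j => if Relation.EqvGen Y.S (u, i) (w, j) then 1 else 0 := by
      intro e j h
      have h4 : Relation.EqvGen Y.S (L.ini e, j) (L.ter e, j + 1) :=
        Relation.EqvGen.rel _ _ (Or.inl ⟨e, j, h, rfl, rfl⟩)
      have h5 : Relation.EqvGen Y.S (L.lab e, j) (L.lab e, j + 1) :=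
        Relation.EqvGen.rel _ _ (Or.inr ⟨_, j, Y.lab_mem e j h, Y.lab_mem' e j h, rfl, rfl⟩)
      have h6 : Relation.EqvGen Y.S (u, i) (L.ini e, j) ↔ Relation.EqvGen Y.S (u, i) (L.ter e, j + 1) :=
        ⟨fun h => h.trans _ _ _ h4, fun h => h.trans _ _ _ (h4.symm _ _)⟩
      have h7 : Relation.EqvGen Y.S (u, i) (L.lab e, j) ↔ Relation.EqvGen Y.S (u, i) (L.lab e, j + 1) :=
        ⟨fun h => h.trans _ _ _ h5, fun h => h.trans _ _ _ (h5.symm _ _)⟩
      show (if _ then (1 : ℚ) else 0) + (if _ then 1 else 0) = (if _ then 1 else 0) + (if _ then 1 else 0)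
      rw [if_congr h6 rfl rfl, if_congr h7 rfl rfl]
      ring
    have h4 : (if Relation.EqvGen Y.S (u, i) (u, i) then (1 : ℚ) else 0) =
        if Relation.EqvGen Y.S (u, i) (v, i) then 1 else 0 := hq _ h3 u v i hu hv
    rw [if_pos (Relation.EqvGen.refl _)] at h4
    have h5 : Relation.EqvGen Y.S (u, i) (v, i) := by
      by_contra h5
      rw [if_neg h5] at h4
      exact one_ne_zero h4
    rcases eqv_cases h1 h2 h5 with h6 | h6
    · rcases Sub.S_level h6 with h7 | h7
      · exact (Prod.ext_iff.1 h7).1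
      · exact absurd h7 (lt_irrefl _)
    · rcases Sub.S_level h6 with h7 | h7
      · exact (Prod.ext_iff.1 h7).1.symm
      · exact absurd h7 (lt_irrefl _)

/-- In the reduced case a subcomplex without a map of the fundamental group onto `ℤ` is a disjoint
union of segments. -/
theorem main3 (hI : Ind L) (hR : Reduced L) (Y : Sub L) (τ : ℤ → V) (hτ : Y.Tree τ)
    (h : ¬ ∃ φ : Y.Pi τ →* Multiplicative ℤ, Function.Surjective φ) :
    (∀ u v i, (u, i) ∈ Y.one → (v, i) ∈ Y.one → u = v) ∧ Y.two = ∅ := by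
  have h1 := red hI hR _ Y le_rfl (ztriv_of_no_epi hτ h).q
  refine ⟨h1, Finset.eq_empty_of_forall_notMem ?_⟩
  rintro ⟨e, i⟩ he
  exact hR.ini_ne e (h1 _ _ i (Y.lab_mem e i he) (Y.ini_mem e i he))

end Pool.Agent.H58T
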