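import Pool.Agent.H58T.Defs

/-!
# The second cohomology of the finite subcomplexes vanishes
-/

set_option autoImplicit false

namespace Pool.Agent.H58T

open Pool.Agent.TH625.LOG Polynomial

variable {V E : Type} [DecidableEq V] {L : LOG V E}

/-- The graph has no cycles: the differences of the ends of the edges are linearly independent (the
boundary operator of the graph is injective). -/
def Forest (L : LOG V E) : Prop :=
  ∀ (T : Finset E) (a : E → ℤ),
    (∀ v, ∑ e ∈ T, a e * ((if L.ini e = v then 1 else 0) - (if L.ter e = v then 1 else 0)) = 0) →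
    ∀ e ∈ T, a e = 0

/-- The same with rational coefficients. -/
def Ind (L : LOG V E) : Prop :=
  ∀ (T : Finset E) (a : E → ℚ),
    (∀ v, ∑ e ∈ T, a e * ((if L.ini e = v then 1 else 0) - (if L.ter e = v then 1 else 0)) = 0) →
    ∀ e ∈ T, a e = 0

theorem forest_of_tree [Fintype V] [Fintype E] (L : LOG V E) (hL : L.Conn)
    (hcard : Fintype.card V = Fintype.card E + 1) : Forest L := by
  classical
  intro T a ha
  have hV : 0 < Fintype.card V := by omega
  obtain ⟨v₀⟩ := Fintype.card_pos_iff.1 hV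
  have h1 := bd1_inj L hL hcard v₀ (fun e => if e ∈ T then a e else 0) 0 (by
    intro v
    unfold LOG.bd1
    simp only [ite_self, add_zero]
    refine Eq.trans ?_ (ha v)
    rw [← Finset.sum_filter_add_sum_filter_not Finset.univ (fun e => e ∈ T)]
    rw [Finset.sum_eq_zero (s := Finset.univ.filter fun e => ¬ e ∈ T), add_zero]
    · rw [Finset.filter_mem_eq_inter, Finset.univ_inter]
      exact Finset.sum_congr rfl fun e he => by rw [if_pos he]
    · intro e he
      rw [if_neg (Finset.mem_filter.1 he).2, zero_mul])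
  intro e he
  have h2 := h1.1 e
  rwa [if_pos he] at h2

theorem Forest.ind {L : LOG V E} (hL : Forest L) : Ind L := by
  classical
  intro T a ha
  set D : ℕ := ∏ e ∈ T, (a e).den with hD
  have hD0 : (D : ℚ) ≠ 0 := by
    have h0 : ∏ e ∈ T, (a e).den ≠ 0 := Finset.prod_ne_zero_iff.2 fun c _ => Rat.den_ne_zero _
    rw [hD]
    exact_mod_cast h0
  have hint : ∀ e ∈ T, ((⌊(D : ℚ) * a e⌋ : ℤ) : ℚ) = D * a e := by
    intro e he
    obtain ⟨k, hk⟩ : (a e).den ∣ D := Finset.dvd_prod_of_mem (fun e => (a e).den) he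
    have h1 : ((a e).den : ℚ) * a e = (a e).num := Rat.den_mul_eq_num _
    have h2 : (D : ℚ) * a e = ((k * (a e).num : ℤ) : ℚ) := by
      rw [hk]
      push_cast
      calc ((a e).den : ℚ) * k * a e = k * (((a e).den : ℚ) * a e) := by ring
        _ = _ := by rw [h1]
    rw [h2, Int.floor_intCast]
  have h1 := hL T (fun e => ⌊(D : ℚ) * a e⌋) (by
    intro v
    have h2 : ((∑ e ∈ T, ⌊(D : ℚ) * a e⌋ * ((if L.ini e = v then 1 else 0) -
        (if L.ter e = v then 1 else 0)) : ℤ) : ℚ) = 0 := by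
      push_cast
      have h3 : ∀ e ∈ T, ((⌊(D : ℚ) * a e⌋ : ℤ) : ℚ) * ((if L.ini e = v then 1 else 0) -
          (if L.ter e = v then 1 else 0)) =
          D * (a e * ((if L.ini e = v then 1 else 0) - (if L.ter e = v then 1 else 0))) := by
        intro e he; rw [hint e he]; ring
      rw [Finset.sum_congr rfl h3, ← Finset.mul_sum, ha v, mul_zero]
    exact_mod_cast h2)
  intro e he
  have h2 := hint e he
  rw [h1 e he] at h2
  have h3 : (D : ℚ) * a e = 0 := by rw [← h2]; norm_num
  exact (mul_eq_zero.1 h3).resolve_left hD0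

/-- The coefficient of the boundary of the 2-cell `e` at the 1-cell `v`. -/
noncomputable def cf (L : LOG V E) (e : E) (v : V) : ℚ[X] :=
  (if L.ini e = v then 1 else 0) + (if L.lab e = v then X - C 1 else 0) - (if L.ter e = v then X else 0)

theorem desc (hI : Ind L) (T : Finset E) (N : ℕ) : ∀ a : E → ℚ[X],
    (∀ e ∈ T, a e ≠ 0 → (a e).natDegree < N) →
    (∀ v, ∑ e ∈ T, a e * cf L e v = 0) → ∀ e ∈ T, a e = 0 := by
  induction N with
  | zero =>
    intro a ha _ e he
    by_contra h
    exact absurd (ha e he h) (by omega)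
  | succ N ih =>
    intro a ha hs
    have h1 : ∀ e ∈ T, (a e).eval 1 = 0 := by
      apply hI T (fun e => (a e).eval 1)
      intro v
      have h2 := congrArg (eval 1) (hs v)
      rw [eval_finsetSum, eval_zero] at h2
      refine Eq.trans (Finset.sum_congr rfl fun e _ => ?_) h2
      rw [eval_mul]
      congr 1
      unfold cf
      split_ifs <;> simp
    have h3 : ∀ e, ∃ b : ℚ[X], e ∈ T → a e = (X - C 1) * b := by
      intro e
      by_cases he : e ∈ T
      · obtain ⟨b, hb⟩ := dvd_iff_isRoot.2 (h1 e he)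
        exact ⟨b, fun _ => hb⟩
      · exact ⟨0, fun h => absurd h he⟩
    choose b hb using h3
    have hX : (X - C 1 : ℚ[X]) ≠ 0 := X_sub_C_ne_zero 1
    have h4 := ih b (by
      intro e heT he
      have h5 : a e ≠ 0 := by rw [hb e heT]; exact mul_ne_zero hX he
      have h6 := ha e heT h5
      rw [hb e heT, natDegree_mul hX he, natDegree_X_sub_C] at h6
      omega) (by
      intro v
      have h5 := hs v
      have h6 : ∀ e ∈ T, a e * cf L e v = (X - C 1) * (b e * cf L e v) := by
        intro e he; rw [hb e he, mul_assoc]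
      rw [Finset.sum_congr rfl h6, ← Finset.mul_sum] at h5
      exact (mul_eq_zero.1 h5).resolve_left hX)
    intro e he
    rw [hb e he, h4 e he, mul_zero]

theorem surj0 (hI : Ind L) (T : Finset E) (M : ℕ) (b : E → ℕ → ℚ) :
    ∃ f : V → ℕ → ℚ, ∀ e ∈ T, ∀ k, k < M →
    f (L.ini e) k + f (L.lab e) (k + 1) - f (L.lab e) k - f (L.ter e) (k + 1) = b e k := by
  classical
  let D : (V → ℕ → ℚ) →ₗ[ℚ] (T × Fin M → ℚ) :=
    { toFun := fun f c => f (L.ini c.1) c.2 + f (L.lab c.1) (c.2 + 1) - f (L.lab c.1) c.2 -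
        f (L.ter c.1) (c.2 + 1)
      map_add' := by intro f g; funext c; simp only [Pi.add_apply]; ring
      map_smul' := by intro r f; funext c; simp only [Pi.smul_apply, smul_eq_mul, RingHom.id_apply]; ring }
  have hD : ∀ f c, D f c = f (L.ini c.1) c.2 + f (L.lab c.1) (c.2 + 1) - f (L.lab c.1) c.2 -
        f (L.ter c.1) (c.2 + 1) := fun _ _ => rfl
  suffices h : LinearMap.range D = ⊤ by
    have h1 : (fun c : T × Fin M => b c.1 c.2) ∈ LinearMap.range D := by rw [h]; trivial
    obtain ⟨f, hf⟩ := h1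
    exact ⟨f, fun e he k hk => congrFun hf (⟨e, he⟩, ⟨k, hk⟩)⟩
  by_contra hne
  obtain ⟨lam, h0, hle⟩ := Submodule.exists_le_ker_of_lt_top _ (lt_top_iff_ne_top.2 hne)
  apply h0
  set n : T × Fin M → ℚ := fun c => lam (Pi.single c 1) with hn
  have hlam : ∀ x, lam x = ∑ c, x c * n c := by
    intro x
    have h1 : x = ∑ c, x c • (Pi.single c (1 : ℚ) : T × Fin M → ℚ) := by
      funext y
      rw [Finset.sum_apply]
      simp [Pi.single_apply]
    conv_lhs => rw [h1]
    rw [map_sum]
    refine Finset.sum_congr rfl fun c _ => ?_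
    rw [map_smul, smul_eq_mul]
  let a' : T → ℚ[X] := fun e => ∑ k : Fin M, C (n (e, k)) * X ^ (k : ℕ)
  let a : E → ℚ[X] := fun e => if h : e ∈ T then a' ⟨e, h⟩ else 0
  have haa : ∀ e : T, a e = a' e := fun e => dif_pos e.2
  have ha : ∀ e ∈ T, a e = 0 := by
    apply desc hI T M
    · intro e heT he
      have h2 : (a e).degree < M := by
        rw [haa ⟨e, heT⟩]
        exact degree_sum_fin_lt fun k => n (⟨e, heT⟩, k)
      exact (natDegree_lt_iff_degree_lt he).2 h2
    · intro v
      apply Polynomial.funext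
      intro r
      have h2 : lam (D fun w k => if w = v then r ^ k else 0) = 0 := hle ⟨_, rfl⟩
      rw [hlam, Fintype.sum_prod_type] at h2
      rw [eval_finsetSum, eval_zero, ← h2, ← Finset.sum_coe_sort T]
      refine Finset.sum_congr rfl fun e _ => ?_
      rw [eval_mul, haa]
      show eval r (∑ k : Fin M, C (n (e, k)) * X ^ (k : ℕ)) * _ = _
      rw [eval_finsetSum, Finset.sum_mul]
      refine Finset.sum_congr rfl fun k _ => ?_
      rw [hD]
      simp only [eval_mul, eval_C, eval_pow, eval_X]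
      unfold cf
      by_cases h3 : L.ini e = v <;> by_cases h4 : L.lab e = v <;> by_cases h5 : L.ter e = v <;>
        simp [h3, h4, h5, pow_succ] <;> ring
  have hn0 : ∀ c, n c = 0 := by
    rintro ⟨e, k⟩
    have h2 := congrArg (fun p : ℚ[X] => p.coeff k) ((haa e).symm.trans (ha e e.2))
    simp only [coeff_zero] at h2
    have h3 : (a' e).coeff k = n (e, k) := by
      show (∑ k : Fin M, C (n (e, k)) * X ^ (k : ℕ)).coeff k = n (e, k)
      rw [finsetSum_coeff, Finset.sum_eq_single k]
      · rw [coeff_C_mul_X_pow, if_pos rfl]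
      · intro j _ hj
        rw [coeff_C_mul_X_pow, if_neg]
        intro h4
        exact hj (Fin.ext h4.symm)
      · intro h4; exact absurd (Finset.mem_univ _) h4
    rw [← h3]; exact h2
  ext c
  simp only [LinearMap.coe_comp, Function.comp_apply, LinearMap.coe_single, LinearMap.zero_apply]
  exact hn0 c

theorem surj (hI : Ind L) (S : Finset (E × ℤ)) (b : E → ℤ → ℚ) : ∃ f : V → ℤ → ℚ, ∀ e i, (e, i) ∈ S →
    f (L.ini e) i + f (L.lab e) (i + 1) - f (L.lab e) i - f (L.ter e) (i + 1) = b e i := by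
  classical
  set T : Finset E := S.image Prod.fst with hT
  have hmem : ∀ e i, (e, i) ∈ S → e ∈ T := fun e i h => Finset.mem_image.2 ⟨_, h, rfl⟩
  set N : ℕ := ∑ c ∈ S, c.2.natAbs with hN
  have hle : ∀ e i, (e, i) ∈ S → i.natAbs ≤ N := by
    intro e i h
    exact Finset.single_le_sum (f := fun c : E × ℤ => c.2.natAbs) (fun _ _ => Nat.zero_le _) h
  obtain ⟨f, hf⟩ := surj0 hI T (2 * N + 1) fun e k => b e ((k : ℤ) - N)
  refine ⟨fun v i => f v (i + N).toNat, fun e i h => ?_⟩
  have h1 := hle e i h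
  have h2 : ((i + N).toNat : ℤ) = i + N := Int.toNat_of_nonneg (by omega)
  have h3 : (i + 1 + N).toNat = (i + N).toNat + 1 := by omega
  have h4 := hf e (hmem e i h) (i + N).toNat (by omega)
  rw [h2, add_sub_cancel_right] at h4
  simp only [h3]
  exact h4

variable [DecidableEq E]

/-- Mayer–Vietoris. -/
theorem Sub.QTriv.cap (hI : Ind L) {Y : Sub L} (hY : Y.QTriv) : Y.cap.QTriv := by
  intro g hg
  set f0 : V → ℤ → ℚ := fun v i => if (v, i) ∈ Y.cap.one then g v i else 0 with hf0
  have hf0' : ∀ v i, (v, i) ∈ Y.cap.one → f0 v i = g v i := fun v i h => if_pos h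
  set b : E → ℤ → ℚ := fun e i => if (e, i) ∈ Y.two then
    f0 (L.ini e) i + f0 (L.lab e) (i + 1) - f0 (L.lab e) i - f0 (L.ter e) (i + 1) else 0 with hb
  have hb0 : ∀ e i, (e, i - 1) ∈ Y.two → b e i = 0 := by
    intro e i h
    by_cases h1 : (e, i) ∈ Y.two
    · have h2 : (e, i) ∈ Y.cap.two := (Y.mem_cap_two e i).2 ⟨h1, h⟩
      have h3 := hg e i h2
      rw [hb]
      simp only [if_pos h1]
      rw [hf0' _ _ (Y.cap.ini_mem e i h2), hf0' _ _ (Y.cap.lab_mem e i h2),
        hf0' _ _ (Y.cap.lab_mem' e i h2), hf0' _ _ (Y.cap.ter_mem e i h2)]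
      linarith
    · rw [hb]
      simp only [if_neg h1]
  obtain ⟨f1, hf1⟩ := surj hI (Y.two ∪ Y.two.image fun c => (c.1, c.2 + 1)) b
  have h1 : Y.QCoc fun v i => f0 v i - f1 v i := by
    intro e i h
    have h2 := hf1 e i (Finset.mem_union_left _ h)
    have h3 : b e i = f0 (L.ini e) i + f0 (L.lab e) (i + 1) - f0 (L.lab e) i - f0 (L.ter e) (i + 1) :=
      if_pos h
    linarith
  have h2 : Y.QCoc fun v i => f1 v (i + 1) := by
    intro e i h
    have h3 := hf1 e (i + 1) (Finset.mem_union_right _ (Finset.mem_image.2 ⟨(e, i), h, rfl⟩))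
    have h4 := hb0 e (i + 1) (by rw [add_sub_cancel_right]; exact h)
    show f1 (L.ini e) (i + 1) + f1 (L.lab e) (i + 1 + 1) = f1 (L.lab e) (i + 1) + f1 (L.ter e) (i + 1 + 1)
    linarith
  intro u v i hu hv
  have hu' := (Y.mem_cap_one u i).1 hu
  have hv' := (Y.mem_cap_one v i).1 hv
  have h3 : f0 u i - f1 u i = f0 v i - f1 v i := hY _ h1 u v i hu'.1 hv'.1
  have h4 : f1 u (i - 1 + 1) = f1 v (i - 1 + 1) := hY _ h2 u v (i - 1) hu'.2 hv'.2
  rw [sub_add_cancel] at h4
  rw [hf0' _ _ hu, hf0' _ _ hv] at h3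
  linarith

end Pool.Agent.H58T
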