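import Pool.Agent.H58T.Red

/-!
# Groups without homomorphisms onto the integers mapped to the fundamental group of a subcomplex
-/

set_option autoImplicit false

namespace Pool.Agent.H58T

open Pool.Agent.TH625.LOG

variable {V E : Type} {L : LOG V E}

/-- a group without homomorphisms onto `ℤ` has only the trivial homomorphism to a free group -/
theorem hom_free_trivial {P : Type} [Group P] (hP : ¬ ∃ φ : P →* Multiplicative ℤ, Function.Surjective φ)
    {X : Type} (ψ : P →* FreeGroup X) : ψ = 1 := by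
  by_contra hne
  have h0 : IsFreeGroup ψ.range := subgroupIsFreeOfIsFree ψ.range
  obtain ⟨p, hp⟩ : ∃ p, ψ p ≠ 1 := by
    by_contra h
    apply hne
    ext p
    by_contra hp
    exact h ⟨p, hp⟩
  have h1 : Nonempty (IsFreeGroup.Generators ψ.range) := by
    by_contra h
    rw [not_nonempty_iff] at h
    have h2 : Subsingleton (FreeGroup (IsFreeGroup.Generators ψ.range)) := inferInstance
    have h3 : Subsingleton ψ.range := (IsFreeGroup.mulEquiv ψ.range).symm.toEquiv.subsingleton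
    apply hp
    have h4 : (⟨ψ p, p, rfl⟩ : ψ.range) = 1 := Subsingleton.elim _ _
    exact congrArg Subtype.val h4
  obtain ⟨x⟩ := h1
  let χ : ψ.range →* Multiplicative ℤ := IsFreeGroup.lift fun _ => Multiplicative.ofAdd 1
  have hχ : Function.Surjective χ := by
    intro m
    refine ⟨(IsFreeGroup.of x) ^ (Multiplicative.toAdd m), ?_⟩
    rw [map_zpow]
    show (IsFreeGroup.lift (fun _ => Multiplicative.ofAdd (1 : ℤ)) (IsFreeGroup.of x)) ^ _ = m
    rw [IsFreeGroup.lift_of, ← ofAdd_zsmul, smul_eq_mul, mul_one, ofAdd_toAdd]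
  exact hP ⟨χ.comp ψ.rangeRestrict, hχ.comp ψ.rangeRestrict_surjective⟩

/-- The homomorphisms of the fundamental group of `Y` induced by the map of `Y` to `K(L)`: `g i` is
the image of a path from the base point to the 0-cell `i`. -/
def Sub.Induced (Y : Sub L) (τ : ℤ → V) (ι : Y.Pi τ →* L.G) : Prop :=
  ∃ g : ℤ → L.G, ∀ v i, (v, i) ∈ Y.one → ι (Y.cl τ v i) = g i * L.gen v * (g (i + 1))⁻¹

theorem gen_coc (Y : Sub L) : Y.Coc fun v _ => L.gen v := by
  intro e i _
  have h1 : PresentedGroup.mk (Set.range L.rel) (L.rel e) = 1 :=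
    PresentedGroup.one_of_mem (rels := Set.range L.rel) ⟨e, rfl⟩
  unfold LOG.rel at h1
  simp only [map_mul, map_inv] at h1
  rw [mul_inv_eq_one, mul_inv_eq_iff_eq_mul] at h1
  exact h1

theorem Sub.exists_induced (Y : Sub L) (τ : ℤ → V) : ∃ ι : Y.Pi τ →* L.G, Y.Induced τ ι := by
  classical
  obtain ⟨g, _, hg⟩ := exists_seq (fun i => Equiv.mulRight (L.gen (τ i))) 0 (1 : L.G)
  have hg' : ∀ i, g (i + 1) = g i * L.gen (τ i) := hg
  obtain ⟨ι, hι⟩ := Y.exists_hom τ
    (fun v i => if (v, i) ∈ Y.one then g i * L.gen v * (g (i + 1))⁻¹ else 1)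
    (fun v i h => if_neg h) (by
      intro i
      by_cases h : (τ i, i) ∈ Y.one
      · show (if (τ i, i) ∈ Y.one then _ else _) = _
        rw [if_pos h, hg', mul_inv_cancel]
      · exact if_neg h) (by
      intro e i h
      show (if (L.ini e, i) ∈ Y.one then _ else _) * (if (L.lab e, i + 1) ∈ Y.one then _ else _) =
        (if (L.lab e, i) ∈ Y.one then _ else _) * (if (L.ter e, i + 1) ∈ Y.one then _ else _)
      rw [if_pos (Y.ini_mem e i h), if_pos (Y.lab_mem e i h), if_pos (Y.lab_mem' e i h),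
        if_pos (Y.ter_mem e i h)]
      have h1 : L.gen (L.ini e) * L.gen (L.lab e) = L.gen (L.lab e) * L.gen (L.ter e) := gen_coc Y e i h
      calc _ = g i * (L.gen (L.ini e) * L.gen (L.lab e)) * (g (i + 1 + 1))⁻¹ := by group
        _ = g i * (L.gen (L.lab e) * L.gen (L.ter e)) * (g (i + 1 + 1))⁻¹ := by rw [h1]
        _ = _ := by group)
  exact ⟨ι, g, fun v i h => by rw [hι]; exact if_pos h⟩

theorem tower {Y : Sub L} {τ : ℤ → V} (hτ : Y.Tree τ) (hY : Y.Conn)
    (hl : ∀ u v i, (u, i) ∈ Y.one → (u, i + 1) ∈ Y.one → (v, i) ∈ Y.one → (v, i + 1) ∈ Y.one →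
      L.gen u = L.gen v) (ι : Y.Pi τ →* L.G) (hι : Y.Induced τ ι) (P : Type) [Group P]
    (hP : ¬ ∃ φ : P →* Multiplicative ℤ, Function.Surjective φ) (ψ : P →* Y.Pi τ) : ι.comp ψ = 1 := by
  classical
  obtain ⟨q, hq⟩ := hι
  obtain ⟨k, _, hk⟩ := exists_seq (fun i => Equiv.mulRight (Y.U (τ i) i)) 0 (1 : Y.FG)
  have hk' : ∀ i, k (i + 1) = k i * Y.U (τ i) i := hk
  set F : V → ℤ → Y.FG := fun v i => if (v, i) ∈ Y.one then k i * Y.U v i * (k (i + 1))⁻¹ else 1 with hF
  have hF1 : ∀ v i, (v, i) ∈ Y.one → F v i = k i * Y.U v i * (k (i + 1))⁻¹ := fun v i h => if_pos h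
  obtain ⟨Ψ, hΨ⟩ := Y.exists_hom τ F (fun v i h => if_neg h) (by
    intro i
    by_cases h : (τ i, i) ∈ Y.one
    · rw [hF1 _ _ h, hk', mul_inv_cancel]
    · exact if_neg h) (by
    intro e i h
    rw [hF1 _ _ (Y.ini_mem e i h), hF1 _ _ (Y.lab_mem e i h), hF1 _ _ (Y.lab_mem' e i h),
      hF1 _ _ (Y.ter_mem e i h)]
    have h1 := Y.U_coc e i h
    calc _ = k i * (Y.U (L.ini e) i * Y.U (L.lab e) (i + 1)) * (k (i + 1 + 1))⁻¹ := by group
      _ = k i * (Y.U (L.lab e) i * Y.U (L.ter e) (i + 1)) * (k (i + 1 + 1))⁻¹ := by rw [h1]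
      _ = _ := by group)
  obtain ⟨θ, h, hθ⟩ := factor (gen_coc Y) (fun u v i h1 h2 h3 h4 =>
    ⟨hl u v i h1 h2 h3 h4, hl u v i h1 h2 h3 h4⟩)
  set g : ℤ → L.G := fun i => θ (k i) * h i * (q i)⁻¹ with hg
  have h1 : ∀ v i, (v, i) ∈ Y.one → θ (Ψ (Y.cl τ v i)) = g i * ι (Y.cl τ v i) * (g (i + 1))⁻¹ := by
    intro v i hv
    rw [hΨ, hF1 _ _ hv, map_mul, map_mul, map_inv, hθ, hq v i hv, hg]
    group
  have h2 : ∀ v i, (v, i) ∈ Y.one → g (i + 1) = g i := by
    intro v i hv
    have h3 := h1 _ i (hτ v i hv)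
    rw [Y.cl_tree, map_one, map_one, map_one, mul_one] at h3
    rw [eq_comm, mul_inv_eq_one] at h3
    exact h3.symm
  have h3 : ∀ u w i j, (u, i) ∈ Y.one → (w, j) ∈ Y.one → i ≤ j → g j = g i := by
    intro u w i j hu hw hij
    obtain ⟨n, rfl⟩ : ∃ n : ℕ, j = i + n := ⟨(j - i).toNat, by omega⟩
    have h4 : ∀ m : ℕ, m ≤ n → g (i + m) = g i := by
      intro m
      induction m with
      | zero => intro _; simp
      | succ m ih =>
        intro hm
        obtain ⟨v, hv⟩ := hY u w i (i + m) (i + n) hu hw (by omega) (by omega)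
        have h5 := h2 v _ hv
        rw [← ih (by omega), ← h5]
        congr 1
        push_cast
        ring
    exact h4 n le_rfl
  have hΨψ : Ψ.comp ψ = 1 := hom_free_trivial hP _
  by_cases hne : ∃ u i, (u, i) ∈ Y.one
  · obtain ⟨u, i, hu⟩ := hne
    have h4 : θ.comp Ψ = (MulAut.conj (g i)).toMonoidHom.comp ι := by
      refine Y.hom_ext τ fun v j hv => ?_
      have h5 : g j = g i := by
        rcases le_total i j with h6 | h6
        · exact h3 u v i j hu hv h6
        · exact (h3 v u j i hv hu h6).symm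
      show θ (Ψ (Y.cl τ v j)) = g i * ι (Y.cl τ v j) * (g i)⁻¹
      rw [h1 v j hv, h2 v j hv, h5]
    ext p
    have h5 : (θ.comp Ψ) (ψ p) = 1 := by
      show θ ((Ψ.comp ψ) p) = 1
      rw [hΨψ]; exact map_one θ
    rw [h4] at h5
    exact (MulAut.conj (g i)).injective (h5.trans (map_one (MulAut.conj (g i))).symm)
  · have h4 : MonoidHom.id (Y.Pi τ) = 1 :=
      Y.hom_ext τ fun v i hv => absurd ⟨v, i, hv⟩ hne
    ext p
    show ι (ψ p) = 1
    have h5 : ψ p = 1 := DFunLike.congr_fun h4 (ψ p)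
    rw [h5, map_one]

end Pool.Agent.H58T
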