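import Pool.Agent.H58T.Surj

/-!
# Finite subcomplexes without a map of the fundamental group onto the integers
-/

set_option autoImplicit false

namespace Pool.Agent.H58T

open Pool.Agent.TH625.LOG

variable {V E : Type} {L : LOG V E}

/-- products of permutations along the integers -/
def pr {H : Type} (t : ℤ → Equiv.Perm H) : ℤ → Equiv.Perm H
  | Int.ofNat n => Nat.rec 1 (fun k ih => t (Int.ofNat k) * ih) n
  | Int.negSucc n => Nat.rec (t (Int.negSucc 0))⁻¹ (fun k ih => (t (Int.negSucc (k + 1)))⁻¹ * ih) n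

theorem pr_succ {H : Type} (t : ℤ → Equiv.Perm H) (i : ℤ) : pr t (i + 1) = t i * pr t i := by
  match i with
  | Int.ofNat n => rfl
  | Int.negSucc 0 =>
    show pr t 0 = t (Int.negSucc 0) * (t (Int.negSucc 0))⁻¹
    rw [mul_inv_cancel]
    rfl
  | Int.negSucc (n + 1) =>
    show pr t (Int.negSucc n) = t (Int.negSucc (n + 1)) * ((t (Int.negSucc (n + 1)))⁻¹ * pr t (Int.negSucc n))
    rw [mul_inv_cancel_left]

theorem exists_seq {H : Type} (t : ℤ → Equiv.Perm H) (j : ℤ) (x : H) :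
    ∃ y : ℤ → H, y j = x ∧ ∀ i, y (i + 1) = t i (y i) := by
  refine ⟨fun i => pr t i ((pr t j)⁻¹ x), ?_, fun i => ?_⟩
  · show (pr t j * (pr t j)⁻¹) x = x
    rw [mul_inv_cancel]; rfl
  · show pr t (i + 1) _ = _
    rw [pr_succ]; rfl

/-- the permutation `x ↦ a⁻¹ x b` of a group -/
def tw {H : Type} [Group H] (a b : H) : Equiv.Perm H := Equiv.mulLeft a⁻¹ * Equiv.mulRight b

theorem tw_apply {H : Type} [Group H] (a b x : H) : tw a b x = a⁻¹ * (x * b) := rfl

/-- The labels at two consecutive levels have well defined values, if the intersection with the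
translate has only trivial cocycles. -/
theorem labels {Y : Sub L} {H : Type} [Group H] {f : V → ℤ → H}
    (h1 : ∀ u v i, (u, i) ∈ Y.one → (u, i + 1) ∈ Y.one → (v, i) ∈ Y.one → (v, i + 1) ∈ Y.one →
      f u i = f v i ∧ f u (i + 1) = f v (i + 1)) :
    ∃ a b : ℤ → H, (∀ i, (∀ u, (u, i) ∈ Y.one → (u, i + 1) ∉ Y.one) → a i = 1 ∧ b i = 1) ∧
      ∀ u i, (u, i) ∈ Y.one → (u, i + 1) ∈ Y.one → f u i = a i ∧ f u (i + 1) = b i := by
  classical
  refine ⟨fun i => if h : ∃ u, (u, i) ∈ Y.one ∧ (u, i + 1) ∈ Y.one then f h.choose i else 1,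
    fun i => if h : ∃ u, (u, i) ∈ Y.one ∧ (u, i + 1) ∈ Y.one then f h.choose (i + 1) else 1, ?_, ?_⟩
  · intro i hi
    have h : ¬ ∃ u, (u, i) ∈ Y.one ∧ (u, i + 1) ∈ Y.one := by
      rintro ⟨u, h2, h3⟩; exact hi u h2 h3
    exact ⟨dif_neg h, dif_neg h⟩
  · intro u i h2 h3
    have h : ∃ u, (u, i) ∈ Y.one ∧ (u, i + 1) ∈ Y.one := ⟨u, h2, h3⟩
    simp only [dif_pos h]
    exact h1 u _ i h2 h3 h.choose_spec.1 h.choose_spec.2

variable [DecidableEq V] [DecidableEq E]

theorem Sub.Coc.labels {Y : Sub L} {H : Type} [Group H] {f : V → ℤ → H} (hf : Y.Coc f)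
    (hc : ∀ g : V → ℤ → H, Y.cap.Coc g → Y.cap.Lev g) :
    ∀ u v i, (u, i) ∈ Y.one → (u, i + 1) ∈ Y.one → (v, i) ∈ Y.one → (v, i + 1) ∈ Y.one →
      f u i = f v i ∧ f u (i + 1) = f v (i + 1) := by
  intro u v i hu hu' hv hv'
  have h1 : Y.cap.Coc f := fun e j h => hf e j ((Y.mem_cap_two e j).1 h).1
  have h2 : Y.cap.Coc fun v j => f v (j - 1) := by
    intro e j h
    have h3 := hf e (j - 1) ((Y.mem_cap_two e j).1 h).2
    rw [sub_add_cancel] at h3
    show f (L.ini e) (j - 1) * f (L.lab e) (j + 1 - 1) = f (L.lab e) (j - 1) * f (L.ter e) (j + 1 - 1)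
    rw [add_sub_cancel_right]
    exact h3
  have hu2 : (u, i + 1) ∈ Y.cap.one := (Y.mem_cap_one u _).2 ⟨hu', by rw [add_sub_cancel_right]; exact hu⟩
  have hv2 : (v, i + 1) ∈ Y.cap.one := (Y.mem_cap_one v _).2 ⟨hv', by rw [add_sub_cancel_right]; exact hv⟩
  have h4 := hc _ h2 u v (i + 1) hu2 hv2
  simp only [add_sub_cancel_right] at h4
  exact ⟨h4, hc f h1 u v (i + 1) hu2 hv2⟩

/-- the induction step -/
theorem step {Y : Sub L} (hq : Y.QTriv) {H : Type} [Group H]
    (hc : ∀ g : V → ℤ → H, Y.cap.Coc g → Y.cap.Lev g) (f : V → ℤ → H) (hf : Y.Coc f) : Y.Lev f := by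
  classical
  obtain ⟨a, b, _, hab⟩ := Pool.Agent.H58T.labels (hf.labels hc)
  intro u v j hu hv
  obtain ⟨x, hx, hx'⟩ := exists_seq (fun i => tw (a i) (b i)) j (f u j)
  have key : ∀ i (y z : H), z = (a i)⁻¹ * (y * b i) → (y = x i ↔ z = x (i + 1)) := by
    intro i y z hz
    rw [hx' i, tw_apply, hz]
    constructor
    · rintro rfl; rfl
    · intro h
      exact mul_right_cancel (mul_left_cancel h)
  have h1 : Y.QCoc fun w i => if f w i = x i then 1 else 0 := by
    intro e i h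
    obtain ⟨h2, h3⟩ := hab (L.lab e) i (Y.lab_mem e i h) (Y.lab_mem' e i h)
    have h4 := hf e i h
    rw [h3, h2] at h4
    have h5 := key i (f (L.ini e) i) (f (L.ter e) (i + 1)) (by rw [h4, inv_mul_cancel_left])
    have h6 := key i (f (L.lab e) i) (f (L.lab e) (i + 1)) (by rw [h2, h3, inv_mul_cancel_left])
    show (if f (L.ini e) i = x i then (1 : ℚ) else 0) + (if f (L.lab e) (i + 1) = x (i + 1) then 1 else 0) =
      (if f (L.lab e) i = x i then 1 else 0) + (if f (L.ter e) (i + 1) = x (i + 1) then 1 else 0)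
    rw [if_congr h5 rfl rfl, if_congr h6 rfl rfl]
    ring
  have h2 : (if f u j = x j then (1 : ℚ) else 0) = if f v j = x j then 1 else 0 := hq _ h1 u v j hu hv
  rw [if_pos hx.symm] at h2
  by_contra h3
  rw [if_neg (by rw [hx]; exact fun h => h3 h.symm)] at h2
  exact one_ne_zero h2

theorem cap_card_lt (Y : Sub L) (h : Y.one.Nonempty) : Y.cap.one.card < Y.one.card := by
  apply Finset.card_lt_card
  refine ⟨Finset.filter_subset _ _, fun hs => ?_⟩
  obtain ⟨c, hc, hmin⟩ := Finset.exists_min_image Y.one (fun c => c.2) h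
  have h1 : c ∈ Y.cap.one := hs hc
  have h2 := ((Y.mem_cap_one c.1 c.2).1 h1).2
  have h3 := hmin _ h2
  simp only at h3
  omega

/-- If all the rational cocycles of a finite subcomplex are coboundaries then so are the cocycles with
values in an arbitrary group. -/
theorem triv (hI : Ind L) (n : ℕ) : ∀ Y : Sub L, Y.one.card ≤ n → Y.QTriv →
    ∀ (H : Type) [Group H] (f : V → ℤ → H), Y.Coc f → Y.Lev f := by
  induction n with
  | zero =>
    intro Y hY _ H _ f _ u v i hu
    rw [Nat.le_zero, Finset.card_eq_zero] at hY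
    rw [hY] at hu
    exact absurd hu (Finset.notMem_empty _)
  | succ n ih =>
    intro Y hY hq H _ f hf
    by_cases h : Y.one.Nonempty
    · have h1 := cap_card_lt Y h
      exact step hq (fun g hg => ih Y.cap (by omega) (hq.cap hI) H g hg) f hf
    · intro u v i hu
      exact absurd ⟨_, hu⟩ h

end Pool.Agent.H58T
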